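import Mathlib

/-!
# Weighted Graev norms on free groups

`Near S c L`: the word `L` has a non-crossing perfect matching of its letters by pairs `x^ε`, `y^{-ε}`
of letters of the same class whose weighted cost is at most `c`; the cost of a pair is the distance
of its letters times the product of the weights of all the pairs which enclose it.
-/

set_option autoImplicit false

namespace Pool.Agent.K4H31.FTG

universe u

/-- An equivalence relation `r`, weights `κ ≥ 1` which are constant on the classes, and a
pseudometric `D`. -/
structure Scale (X : Type u) where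
  r : X → X → Prop
  equiv : Equivalence r
  κ : X → ℝ
  one_le : ∀ x, 1 ≤ κ x
  κ_eq : ∀ x y, r x y → κ x = κ y
  D : X → X → ℝ
  D_self : ∀ x, D x x = 0
  D_nonneg : ∀ x y, 0 ≤ D x y
  D_comm : ∀ x y, D x y = D y x
  D_tri : ∀ x y z, D x z ≤ D x y + D y z

variable {X : Type u} (S : Scale X)

inductive Near : ℝ → List (X × Bool) → Prop
  | nil (c : ℝ) (hc : 0 ≤ c) : Near c []
  | pair (c c₁ c₂ : ℝ) (x y : X) (b : Bool) (w w' : List (X × Bool)) (hr : S.r x y)
      (h₁ : Near c₁ w) (h₂ : Near c₂ w') (hc : S.D x y + S.κ x * c₁ + c₂ ≤ c) :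
      Near c ((x, b) :: (w ++ (y, !b) :: w'))

variable {S}

theorem Near.nonneg {c : ℝ} {L : List (X × Bool)} (h : Near S c L) : 0 ≤ c := by
  induction h with
  | nil c hc => exact hc
  | pair c c₁ c₂ x y b w w' hr h₁ h₂ hc ih₁ ih₂ =>
    have h1 := S.D_nonneg x y
    have h2 := S.one_le x
    nlinarith

theorem Near.mono {c c' : ℝ} {L : List (X × Bool)} (h : Near S c L) (hc : c ≤ c') :
    Near S c' L := by
  cases h with
  | nil c h => exact Near.nil _ (h.trans hc)
  | pair c c₁ c₂ x y b w w' hr h₁ h₂ h => exact Near.pair _ c₁ c₂ x y b w w' hr h₁ h₂ (h.trans hc)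

theorem Near.append {c c' : ℝ} {L L' : List (X × Bool)} (h : Near S c L) (h' : Near S c' L') :
    Near S (c + c') (L ++ L') := by
  induction h with
  | nil c hc => exact h'.mono (by linarith)
  | pair c c₁ c₂ x y b w w' hr h₁ h₂ hc ih₁ ih₂ =>
    have := Near.pair (c + c') c₁ (c₂ + c') x y b w (w' ++ L') hr h₁ ih₂ (by linarith)
    simpa using this

/-- inversion for a nonempty word -/
theorem Near.inv {c : ℝ} {x : X} {b : Bool} {L : List (X × Bool)} (h : Near S c ((x, b) :: L)) :
    ∃ (c₁ c₂ : ℝ) (y : X) (w w' : List (X × Bool)), L = w ++ (y, !b) :: w' ∧ S.r x y ∧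
      Near S c₁ w ∧ Near S c₂ w' ∧ S.D x y + S.κ x * c₁ + c₂ ≤ c := by
  generalize hM : (x, b) :: L = M at h
  cases h with
  | nil => exact absurd hM (by simp)
  | pair c c₁ c₂ x' y b' w w' hr h₁ h₂ hc =>
    simp only [List.cons.injEq, Prod.mk.injEq] at hM
    obtain ⟨⟨rfl, rfl⟩, rfl⟩ := hM
    exact ⟨c₁, c₂, y, w, w', rfl, hr, h₁, h₂, hc⟩

/-- inversion at the last letter -/
theorem Near.inv_last {c : ℝ} {M : List (X × Bool)} (h : Near S c M) : ∀ (L : List (X × Bool))
    (x : X) (b : Bool), M = L ++ [(x, b)] →
    ∃ (c₁ c₂ : ℝ) (y : X) (a a' : List (X × Bool)), L = a ++ (y, !b) :: a' ∧ S.r y x ∧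
      Near S c₂ a ∧ Near S c₁ a' ∧ c₂ + (S.D y x + S.κ y * c₁) ≤ c := by
  induction h with
  | nil c hc => intro L x b h; exact absurd h (by simp)
  | pair c c₁ c₂ p q s w w' hr h₁ h₂ hc ih₁ ih₂ =>
    intro L x b hM
    rcases List.eq_nil_or_concat w' with rfl | ⟨w'', z, rfl⟩
    · have h1 : ((p, s) :: w) ++ [(q, !s)] = L ++ [(x, b)] := by simpa using hM
      obtain ⟨h2, h3⟩ := List.append_inj' h1 rfl
      simp only [List.cons.injEq, Prod.mk.injEq, and_true] at h3
      obtain ⟨rfl, rfl⟩ := h3
      refine ⟨c₁, 0, p, [], w, ?_, hr, Near.nil 0 le_rfl, h₁, ?_⟩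
      · rw [← h2]; simp
      · have := h₂.nonneg; linarith
    · have h1 : ((p, s) :: (w ++ (q, !s) :: w'')) ++ [z] = L ++ [(x, b)] := by simpa using hM
      obtain ⟨h2, h3⟩ := List.append_inj' h1 rfl
      simp only [List.cons.injEq, and_true] at h3
      subst h3
      obtain ⟨d₁, d₂, y, a, a', e, hry, n1, n2, hd⟩ := ih₂ w'' x b (by simp)
      subst e
      refine ⟨d₁, S.D p q + S.κ p * c₁ + d₂, y, (p, s) :: (w ++ (q, !s) :: a), a', ?_, hry, ?_, n2, ?_⟩
      · rw [← h2]; simp
      · exact Near.pair _ c₁ d₂ p q s w a hr h₁ n1 le_rfl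
      · linarith

theorem Near.reduce_aux (n : ℕ) : ∀ (u v : List (X × Bool)) (x : X) (b : Bool) (c : ℝ),
    u.length + v.length ≤ n → Near S c (u ++ (x, b) :: (x, !b) :: v) → Near S c (u ++ v) := by
  induction n with
  | zero =>
    intro u v x b c hn h
    have hu : u = [] := List.length_eq_zero_iff.1 (by omega)
    have hv : v = [] := List.length_eq_zero_iff.1 (by omega)
    subst hu; subst hv
    exact Near.nil _ h.nonneg
  | succ n ih =>
    intro u v x b c hn h
    rcases u with _ | ⟨⟨p, s⟩, u'⟩
    · simp only [List.nil_append] at h ⊢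
      obtain ⟨c₁, c₂, q, w, w', e, hr, h₁, h₂, hc⟩ := h.inv
      rcases w with _ | ⟨z, w1⟩
      · simp only [List.nil_append, List.cons.injEq] at e
        obtain ⟨-, rfl⟩ := e
        have h1 := S.D_nonneg x q
        have h2 := h₁.nonneg
        have h3 := S.one_le x
        exact h₂.mono (by nlinarith)
      · simp only [List.cons_append, List.cons.injEq] at e
        obtain ⟨rfl, rfl⟩ := e
        obtain ⟨d₁, d₂, y, a, a', e, hry, n1, n2, hd⟩ := h₁.inv
        subst e
        have hk := S.κ_eq x y hry
        have h2 := Near.pair (S.D y q + S.κ y * d₂ + c₂) d₂ c₂ y q b a' w'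
          (S.equiv.trans (S.equiv.symm hry) hr) n2 h₂ le_rfl
        have h3 := n1.append h2
        have t := S.D_tri y x q
        rw [S.D_comm y x] at t
        have o := S.one_le x
        have h4 := n1.nonneg
        have h5 := n2.nonneg
        have h6 := S.D_nonneg x y
        rw [← hk] at h3
        have : Near S c (a ++ (y, b) :: (a' ++ (q, !b) :: w')) := by
          refine h3.mono ?_
          have e1 : S.κ x * c₁ ≥ S.κ x * (S.D x y + S.κ x * d₁ + d₂) :=
            mul_le_mul_of_nonneg_left hd (by linarith)
          have e2 : S.κ x * S.D x y ≥ S.D x y := by nlinarith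
          have e3 : S.κ x * (S.κ x * d₁) ≥ d₁ := by
            have : S.κ x * d₁ ≥ d₁ := by nlinarith
            nlinarith
          nlinarith
        simpa using this
    · have hn' : u'.length + v.length ≤ n := by simp at hn; omega
      rw [List.cons_append] at h
      obtain ⟨c₁, c₂, q, w, w', e, hr, h₁, h₂, hc⟩ := h.inv
      -- the case where `p` is matched with the first letter of the redex
      have caseA : w = u' → (q, !s) = (x, b) → w' = (x, !b) :: v → Near S c ((p, s) :: (u' ++ v)) := by
        rintro rfl e1 rfl
        simp only [Prod.mk.injEq] at e1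
        obtain ⟨rfl, rfl⟩ := e1
        obtain ⟨d₁, d₂, y, a, a', e, hry, n1, n2, hd⟩ := h₂.inv
        subst e
        simp only [Bool.not_not] at *
        have hk := S.κ_eq p q hr
        have h3 := Near.pair c (c₁ + d₁) d₂ p y s (w ++ a) a' (S.equiv.trans hr hry)
          (h₁.append n1) n2 (by
            have t := S.D_tri p q y
            rw [← hk] at hd
            have := n1.nonneg
            nlinarith)
        simpa using h3
      rcases List.append_eq_append_iff.1 e with ⟨a', e1, e2⟩ | ⟨c', e1, e2⟩
      · rcases a' with _ | ⟨z, a''⟩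
        · simp only [List.append_nil, List.nil_append, List.cons.injEq] at e1 e2
          exact caseA e1 e2.1.symm e2.2.symm
        · simp only [List.cons_append, List.cons.injEq] at e2
          obtain ⟨rfl, e2⟩ := e2
          rcases a'' with _ | ⟨z, v1⟩
          · -- matched with the second letter of the redex
            simp only [List.nil_append, List.cons.injEq, Prod.mk.injEq] at e2
            obtain ⟨⟨rfl, e3⟩, rfl⟩ := e2
            have hs : b = s := by simpa using e3
            subst hs
            subst e1
            obtain ⟨d₁, d₂, y, a, a', e, hry, n1, n2, hd⟩ := h₁.inv_last u' x b rfl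
            subst e
            have hk := S.κ_eq p x hr
            have hk2 := S.κ_eq y x hry
            have h3 := Near.pair c d₂ (d₁ + c₂) p y b a (a' ++ v)
              (S.equiv.trans hr (S.equiv.symm hry)) n1 (n2.append h₂) (by
                have t := S.D_tri p x y
                rw [S.D_comm x y] at t
                have o := S.one_le p
                have o2 := n1.nonneg
                have o3 := n2.nonneg
                have o4 := S.D_nonneg y x
                rw [hk2, ← hk] at hd
                have e4 : S.κ p * c₁ ≥ S.κ p * (d₂ + (S.D y x + S.κ p * d₁)) :=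
                  mul_le_mul_of_nonneg_left hd (by linarith)
                have e5 : S.κ p * S.D y x ≥ S.D y x := by nlinarith
                have e6 : S.κ p * (S.κ p * d₁) ≥ d₁ := by
                  have : S.κ p * d₁ ≥ d₁ := by nlinarith
                  nlinarith
                nlinarith)
            simpa using h3
          · simp only [List.cons_append, List.cons.injEq] at e2
            obtain ⟨rfl, e3⟩ := e2
            subst e3
            subst e1
            have h3 := ih u' v1 x b c₁ (by simp at hn'; omega) h₁
            have h4 := Near.pair c c₁ c₂ p q s _ w' hr h3 h₂ hc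
            simpa using h4
      · rcases c' with _ | ⟨z, u''⟩
        · simp only [List.append_nil, List.nil_append, List.cons.injEq] at e1 e2
          exact caseA e1.symm e2.1 e2.2
        · simp only [List.cons_append, List.cons.injEq] at e2
          obtain ⟨rfl, rfl⟩ := e2
          subst e1
          have h3 := ih u'' v x b c₂ (by simp at hn'; omega) h₂
          have h4 := Near.pair c c₁ c₂ p q s w _ hr h₁ h3 hc
          simpa using h4

theorem Near.reduce_step {u v : List (X × Bool)} {x : X} {b : Bool} {c : ℝ}
    (h : Near S c (u ++ (x, b) :: (x, !b) :: v)) : Near S c (u ++ v) :=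
  Near.reduce_aux _ u v x b c le_rfl h

theorem Near.insert_aux (n : ℕ) : ∀ (u v : List (X × Bool)) (x : X) (b : Bool) (c : ℝ),
    u.length + v.length ≤ n → Near S c (u ++ v) → Near S c (u ++ (x, b) :: (x, !b) :: v) := by
  induction n with
  | zero =>
    intro u v x b c hn h
    have hu : u = [] := List.length_eq_zero_iff.1 (by omega)
    have hv : v = [] := List.length_eq_zero_iff.1 (by omega)
    subst hu; subst hv
    have := Near.pair c 0 0 x x b [] [] (S.equiv.refl x) (Near.nil 0 le_rfl) (Near.nil 0 le_rfl)
      (by rw [S.D_self]; simpa using h.nonneg)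
    simpa using this
  | succ n ih =>
    intro u v x b c hn h
    rcases u with _ | ⟨⟨p, s⟩, u'⟩
    · simp only [List.nil_append] at h ⊢
      have := Near.pair c 0 c x x b [] v (S.equiv.refl x) (Near.nil 0 le_rfl) h
        (by rw [S.D_self]; simp)
      simpa using this
    · have hn' : u'.length + v.length ≤ n := by simp at hn; omega
      rw [List.cons_append] at h
      obtain ⟨c₁, c₂, q, w, w', e, hr, h₁, h₂, hc⟩ := h.inv
      rcases List.append_eq_append_iff.1 e with ⟨a', e1, e2⟩ | ⟨c', e1, e2⟩
      · subst e1
        subst e2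
        have h3 := ih u' a' x b c₁ (by simp at hn'; omega) h₁
        have h4 := Near.pair c c₁ c₂ p q s _ w' hr h3 h₂ hc
        simpa using h4
      · rcases c' with _ | ⟨z, u''⟩
        · simp only [List.append_nil, List.nil_append] at e1 e2
          subst e1
          subst e2
          have h3 := ih u' [] x b c₁ (by simp at hn' ⊢; omega) (by simpa using h₁)
          have h4 := Near.pair c c₁ c₂ p q s _ w' hr h3 h₂ hc
          simpa using h4
        · simp only [List.cons_append, List.cons.injEq] at e2
          obtain ⟨rfl, rfl⟩ := e2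
          subst e1
          have h3 := ih u'' v x b c₂ (by simp at hn'; omega) h₂
          have h4 := Near.pair c c₁ c₂ p q s w _ hr h₁ h3 hc
          simpa using h4

theorem Near.insert_step {u v : List (X × Bool)} (x : X) (b : Bool) {c : ℝ}
    (h : Near S c (u ++ v)) : Near S c (u ++ (x, b) :: (x, !b) :: v) :=
  Near.insert_aux _ u v x b c le_rfl h

theorem near_iff_of_red {c : ℝ} {L L' : List (X × Bool)} (h : FreeGroup.Red L L') :
    Near S c L ↔ Near S c L' := by
  induction h with
  | refl => exact Iff.rfl
  | tail _ hstep ih =>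
    refine ih.trans ?_
    cases hstep with
    | not => exact ⟨Near.reduce_step, Near.insert_step _ _⟩

theorem Near.invRev {c : ℝ} {L : List (X × Bool)} (h : Near S c L) :
    Near S c (FreeGroup.invRev L) := by
  induction h with
  | nil c hc => exact Near.nil _ hc
  | pair c c₁ c₂ x y b w w' hr h₁ h₂ hc ih₁ ih₂ =>
    have h1 := Near.pair (S.D x y + S.κ x * c₁) c₁ 0 y x b (FreeGroup.invRev w) []
      (S.equiv.symm hr) ih₁ (Near.nil 0 le_rfl) (by rw [S.κ_eq x y hr, S.D_comm]; linarith)
    have h2 := ih₂.append h1
    have h3 : FreeGroup.invRev ((x, b) :: (w ++ (y, !b) :: w')) =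
        FreeGroup.invRev w' ++ (y, b) :: (FreeGroup.invRev w ++ (x, !b) :: []) := by
      simp [FreeGroup.invRev]
    rw [h3]
    exact h2.mono (by linarith)

theorem Near.conj_letter {c : ℝ} {L : List (X × Bool)} (h : Near S c L) (x : X) (b : Bool) :
    Near S (S.κ x * c) ((x, b) :: (L ++ [(x, !b)])) := by
  have := Near.pair (S.κ x * c) c 0 x x b L [] (S.equiv.refl x) h (Near.nil 0 le_rfl)
    (by rw [S.D_self]; linarith)
  exact this

/-- the product of the weights of the letters -/
def wt (S : Scale X) (U : List (X × Bool)) : ℝ := (U.map fun p => S.κ p.1).prod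

theorem wt_pos (U : List (X × Bool)) : 0 < wt S U := by
  unfold wt
  induction U with
  | nil => simp
  | cons p U ih =>
    simp only [List.map_cons, List.prod_cons]
    have := S.one_le p.1
    positivity

theorem Near.conj {c : ℝ} {L : List (X × Bool)} (h : Near S c L) (U : List (X × Bool)) :
    Near S (wt S U * c) (U ++ L ++ FreeGroup.invRev U) := by
  induction U with
  | nil => simpa [wt] using h
  | cons p U ih =>
    obtain ⟨x, b⟩ := p
    have := ih.conj_letter x b
    have e : (x, b) :: U ++ L ++ FreeGroup.invRev ((x, b) :: U) =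
        (x, b) :: (U ++ L ++ FreeGroup.invRev U ++ [(x, !b)]) := by
      simp [FreeGroup.invRev]
    rw [e]
    refine this.mono (le_of_eq ?_)
    simp [wt]
    ring

end Pool.Agent.K4H31.FTG
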