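import Mathlib
import Pool.Agent.K4H31.Near

/-!
# The group topology on the free group given by a family of weighted Graev norms
-/

set_option autoImplicit false

namespace Pool.Agent.K4H31.FTG

open Classical Filter Topology Set
open scoped Pointwise

universe u

variable {X : Type u} (S : Scale X)

/-- The element `g` has a representative with a matching of cost less than `ε`. -/
def ball (ε : ℝ) : Set (FreeGroup X) := {g | ∃ c < ε, Near S c g.toWord}

variable {S}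

theorem mem_ball_mk {ε : ℝ} {L : List (X × Bool)} :
    FreeGroup.mk L ∈ ball S ε ↔ ∃ c < ε, Near S c L := by
  unfold ball
  simp only [mem_ofPred_eq, FreeGroup.toWord_mk]
  constructor
  · rintro ⟨c, hc, h⟩
    exact ⟨c, hc, (near_iff_of_red FreeGroup.reduce.red).2 h⟩
  · rintro ⟨c, hc, h⟩
    exact ⟨c, hc, (near_iff_of_red FreeGroup.reduce.red).1 h⟩

theorem one_mem_ball {ε : ℝ} (hε : 0 < ε) : (1 : FreeGroup X) ∈ ball S ε := by
  rw [FreeGroup.one_eq_mk, mem_ball_mk]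
  exact ⟨0, hε, Near.nil 0 le_rfl⟩

theorem mul_mem_ball {ε δ : ℝ} {g h : FreeGroup X} (hg : g ∈ ball S ε) (hh : h ∈ ball S δ) :
    g * h ∈ ball S (ε + δ) := by
  rw [← FreeGroup.mk_toWord (x := g), ← FreeGroup.mk_toWord (x := h), FreeGroup.mul_mk, mem_ball_mk]
  obtain ⟨c, hc, h1⟩ := hg
  obtain ⟨d, hd, h2⟩ := hh
  exact ⟨c + d, by linarith, h1.append h2⟩

theorem inv_mem_ball {ε : ℝ} {g : FreeGroup X} (hg : g ∈ ball S ε) : g⁻¹ ∈ ball S ε := by
  rw [← FreeGroup.mk_toWord (x := g), FreeGroup.inv_mk, mem_ball_mk]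
  obtain ⟨c, hc, h1⟩ := hg
  exact ⟨c, hc, h1.invRev⟩

theorem conj_mem_ball {ε : ℝ} {g h : FreeGroup X} (hg : g ∈ ball S (ε / wt S h.toWord)) :
    h * g * h⁻¹ ∈ ball S ε := by
  rw [← FreeGroup.mk_toWord (x := g), ← FreeGroup.mk_toWord (x := h), FreeGroup.inv_mk,
    FreeGroup.mul_mk, FreeGroup.mul_mk, mem_ball_mk]
  obtain ⟨c, hc, h1⟩ := hg
  have hw := wt_pos (S := S) h.toWord
  refine ⟨wt S h.toWord * c, ?_, h1.conj _⟩
  rw [lt_div_iff₀ hw] at hc
  linarith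

variable (S)

/-- The neighbourhoods of the identity. -/
def basis : GroupFilterBasis (FreeGroup X) where
  sets := {U | ∃ ε > 0, U = ball S ε}
  nonempty := ⟨ball S 1, 1, one_pos, rfl⟩
  inter_sets := by
    rintro _ _ ⟨ε, hε, rfl⟩ ⟨δ, hδ, rfl⟩
    refine ⟨ball S (min ε δ), ⟨_, lt_min hε hδ, rfl⟩, ?_⟩
    rintro g ⟨c, hc, h⟩
    exact ⟨⟨c, hc.trans_le (min_le_left _ _), h⟩, ⟨c, hc.trans_le (min_le_right _ _), h⟩⟩
  one' := by
    rintro _ ⟨ε, hε, rfl⟩
    exact one_mem_ball hε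
  mul' := by
    rintro _ ⟨ε, hε, rfl⟩
    refine ⟨ball S (ε / 2), ⟨_, half_pos hε, rfl⟩, ?_⟩
    rintro _ ⟨g, hg, h, hh, rfl⟩
    have := mul_mem_ball hg hh
    rwa [add_halves] at this
  inv' := by
    rintro _ ⟨ε, hε, rfl⟩
    exact ⟨ball S ε, ⟨_, hε, rfl⟩, fun g hg => inv_mem_ball hg⟩
  conj' := by
    rintro h _ ⟨ε, hε, rfl⟩
    exact ⟨ball S (ε / wt S h.toWord), ⟨_, div_pos hε (wt_pos _), rfl⟩,
      fun g hg => conj_mem_ball hg⟩

theorem ball_mem_nhds {ε : ℝ} (hε : 0 < ε) : ball S ε ∈ @nhds _ (basis S).topology 1 :=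
  (basis S).mem_nhds_one ⟨ε, hε, rfl⟩

/-- The inclusion of `X` is continuous if the balls of the classes are neighbourhoods. -/
theorem continuous_of [TopologicalSpace X]
    (h : ∀ (x : X) (ε : ℝ), 0 < ε → {y | S.r x y ∧ S.D x y < ε} ∈ 𝓝 x) :
    @Continuous _ _ _ (basis S).topology (FreeGroup.of : X → FreeGroup X) := by
  letI := (basis S).topology
  rw [continuous_iff_continuousAt]
  intro x
  have hb := (basis S).nhds_hasBasis (FreeGroup.of x)
  refine hb.tendsto_right_iff.2 ?_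
  rintro _ ⟨ε, hε, rfl⟩
  filter_upwards [h x ε hε] with y hy
  refine ⟨(FreeGroup.of x)⁻¹ * FreeGroup.of y, ?_, by group⟩
  unfold FreeGroup.of
  rw [FreeGroup.inv_mk, FreeGroup.mul_mk, mem_ball_mk]
  refine ⟨S.D x y, hy.2, ?_⟩
  have := Near.pair (S := S) (S.D x y) 0 0 x y false [] [] hy.1 (Near.nil 0 le_rfl)
    (Near.nil 0 le_rfl) (by simp)
  simpa [FreeGroup.invRev] using this

end Pool.Agent.K4H31.FTG
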