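import Mathlib
import Pool.Agent.K4H31.NearTop

/-!
# `F_4(X)` is a Fréchet-Urysohn space if `X` is metrizable and `X'` is compact
-/

set_option autoImplicit false

namespace Pool.Agent.K4H31.FTG

open Classical Filter Topology Set
open scoped Pointwise

universe u

/-! ### Combinatorics of matchings -/

section comb

variable {X : Type u} {S : Scale X}

theorem red_mid {L a l b : List (X × Bool)} (h : FreeGroup.IsReduced L)
    (e : L = a ++ (l ++ b)) : FreeGroup.IsReduced l := by
  subst e
  exact List.IsChain.left_of_append (List.IsChain.right_of_append h)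

theorem Near.even {c : ℝ} {L : List (X × Bool)} (h : Near S c L) : Even L.length := by
  induction h with
  | nil => simp
  | pair c c₁ c₂ x y b w w' hr h₁ h₂ hc ih₁ ih₂ =>
    obtain ⟨i, hi⟩ := ih₁
    obtain ⟨j, hj⟩ := ih₂
    refine ⟨i + j + 1, ?_⟩
    simp
    omega

theorem Near.adj {c : ℝ} {L : List (X × Bool)} (h : Near S c L) : L ≠ [] →
    ∃ (a : List (X × Bool)) (x : X) (b : Bool) (y : X) (a' : List (X × Bool)),
      L = a ++ (x, b) :: (y, !b) :: a' ∧ S.r x y ∧ S.D x y ≤ c := by
  induction h with
  | nil => intro h; exact absurd rfl h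
  | pair c c₁ c₂ x y b w w' hr h₁ h₂ hc ih₁ ih₂ =>
    intro _
    have n1 := h₁.nonneg
    have n2 := h₂.nonneg
    have o := S.one_le x
    have d := S.D_nonneg x y
    rcases w with _ | ⟨z, w1⟩
    · exact ⟨[], x, b, y, w', by simp, hr, by nlinarith⟩
    · obtain ⟨a, p, s, q, a', e, hpq, hD⟩ := ih₁ (by simp)
      refine ⟨(x, b) :: a, p, s, q, a' ++ (y, !b) :: w', ?_, hpq, by nlinarith⟩
      rw [e]; simp

/-- `W` is obtained from the inverse of `U` by moving the letters and inserting matched words. -/
inductive Match (S : Scale X) (c : ℝ) : List (X × Bool) → List (X × Bool) → Prop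
  | nil (G : List (X × Bool)) (h : Near S c G) : Match S c [] G
  | cons (x y : X) (b : Bool) (U W G : List (X × Bool)) (hr : S.r x y) (hD : S.D x y ≤ c)
      (h : Match S c U W) (hG : Near S c G) : Match S c ((x, b) :: U) (W ++ (y, !b) :: G)

theorem match_of_near {c : ℝ} : ∀ (U W : List (X × Bool)),
    (∀ (a : List (X × Bool)) (x : X) (b : Bool) (y : X) (a' : List (X × Bool)),
      U = a ++ (x, b) :: (y, !b) :: a' → S.r x y → c < S.D x y) →
    Near S c (U ++ W) → Match S c U W := by
  intro U
  induction U with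
  | nil => intro W _ h; exact Match.nil _ h
  | cons p U ih =>
    obtain ⟨x, b⟩ := p
    intro W hU h
    rw [List.cons_append] at h
    obtain ⟨c₁, c₂, q, w, w', e, hr, h₁, h₂, hc⟩ := h.inv
    have n1 := h₁.nonneg
    have n2 := h₂.nonneg
    have o := S.one_le x
    have d := S.D_nonneg x q
    have hc1 : c₁ ≤ c := by nlinarith
    have hc2 : c₂ ≤ c := by nlinarith
    have hD : S.D x q ≤ c := by nlinarith
    have hU' : ∀ (a : List (X × Bool)) (x : X) (b : Bool) (y : X) (a' : List (X × Bool)),
        U = a ++ (x, b) :: (y, !b) :: a' → S.r x y → c < S.D x y := by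
      intro a p s q' a' e' hpq
      exact hU ((x, b) :: a) p s q' a' (by rw [e']; simp) hpq
    rcases List.append_eq_append_iff.1 e with ⟨a', e1, e2⟩ | ⟨c', e1, e2⟩
    · subst e1
      subst e2
      exact Match.cons x q b U a' w' hr hD (ih a' hU' (h₁.mono hc1)) (h₂.mono hc2)
    · rcases c' with _ | ⟨z, c''⟩
      · simp only [List.append_nil, List.nil_append] at e1 e2
        subst e1
        subst e2
        have := Match.cons x q b U [] w' hr hD (ih [] hU' (by simpa using h₁.mono hc1))
          (h₂.mono hc2)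
        simpa using this
      · simp only [List.cons_append, List.cons.injEq] at e2
        obtain ⟨rfl, -⟩ := e2
        exfalso
        have h3 : Near S c ((x, b) :: (w ++ [(q, !b)])) :=
          Near.pair c c₁ 0 x q b w [] hr h₁ (Near.nil 0 le_rfl) (by linarith)
        obtain ⟨a, p, s, q', a', e', hpq, hD'⟩ := h3.adj (by simp)
        have := hU a p s q' (a' ++ c'') (by
          have : (x, b) :: U = ((x, b) :: (w ++ [(q, !b)])) ++ c'' := by rw [e1]; simp
          rw [this, e']; simp) hpq
        linarith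

theorem Match.length_le {c : ℝ} {U W : List (X × Bool)} (h : Match S c U W) :
    U.length ≤ W.length := by
  induction h with
  | nil => simp
  | cons x y b U W G hr hD h hG ih => simp; omega

/-- reduced matched words with at most three letters -/
theorem Near.short {c : ℝ} {L : List (X × Bool)} (h : Near S c L) (hl : L.length ≤ 3)
    (hred : FreeGroup.IsReduced L) : L = [] ∨
      ∃ (x y : X) (b : Bool), L = [(x, b), (y, !b)] ∧ x ≠ y ∧ S.r x y ∧ S.D x y ≤ c := by
  have he := h.even
  rcases L with _ | ⟨⟨x, b⟩, _ | ⟨z, _ | ⟨z', _ | ⟨z'', L⟩⟩⟩⟩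
  · exact Or.inl rfl
  · simp at he
  · right
    obtain ⟨a, p, s, q, a', e, hpq, hD⟩ := h.adj (by simp)
    rcases a with _ | ⟨a1, _ | ⟨a2, a3⟩⟩
    · simp only [List.nil_append, List.cons.injEq, Prod.mk.injEq] at e
      obtain ⟨⟨rfl, rfl⟩, rfl, rfl⟩ := e
      refine ⟨x, q, b, rfl, ?_, hpq, hD⟩
      rintro rfl
      have := (FreeGroup.isReduced_cons_cons.1 hred).1 rfl
      simp at this
    · simp at e
    · simp at e
  · simp at he
    exact absurd he (by decide)
  · simp at hl
    omega

/-- reduced matched words with at most four letters -/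
theorem Near.short4 {c : ℝ} {L : List (X × Bool)} (h : Near S c L) (hl : L.length ≤ 4)
    (hred : FreeGroup.IsReduced L) : L = [] ∨
      (∃ (x y : X) (b : Bool), L = [(x, b), (y, !b)] ∧ x ≠ y ∧ S.r x y ∧ S.D x y ≤ c) ∨
      (∃ (x y : X) (b : Bool) (z t : X) (s : Bool), L = [(x, b), (y, !b), (z, s), (t, !s)] ∧
        x ≠ y ∧ S.r x y ∧ S.D x y ≤ c ∧ z ≠ t ∧ S.r z t ∧ S.D z t ≤ c) ∨
      (∃ (x y : X) (b : Bool) (z t : X) (s : Bool), L = [(x, b), (y, s), (z, !s), (t, !b)] ∧
        y ≠ z ∧ S.r y z ∧ S.r x t ∧ S.D x t ≤ c ∧ S.κ x * S.D y z ≤ c) := by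
  rcases Nat.lt_or_ge L.length 4 with h4 | h4
  · rcases h.short (by omega) hred with h5 | h5
    · exact Or.inl h5
    · exact Or.inr (Or.inl h5)
  · right; right
    rcases L with _ | ⟨⟨x, b⟩, _ | ⟨z2, _ | ⟨z3, _ | ⟨z4, _ | ⟨z5, L⟩⟩⟩⟩⟩ <;>
      simp only [List.length_cons, List.length_nil] at h4 hl <;> try omega
    obtain ⟨c₁, c₂, y, w, w', e, hr, h₁, h₂, hc⟩ := h.inv
    have n1 := h₁.nonneg
    have n2 := h₂.nonneg
    have o := S.one_le x
    have d := S.D_nonneg x y
    have e1 := h₁.even
    have e2 := h₂.even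
    have hlen : w.length + w'.length = 2 := by
      have := congrArg List.length e
      simp at this
      omega
    rcases w with _ | ⟨a1, _ | ⟨a2, w1⟩⟩
    · left
      simp only [List.nil_append, List.cons.injEq] at e
      obtain ⟨rfl, rfl⟩ := e
      have hred2 : FreeGroup.IsReduced [z3, z4] :=
        (FreeGroup.isReduced_cons_cons.1 (FreeGroup.isReduced_cons_cons.1 hred).2).2
      rcases h₂.short (by simp) hred2 with h5 | ⟨p, q, s, h5, hne, hrr, hDD⟩
      · simp at h5
      · simp only [List.cons.injEq, and_true] at h5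
        obtain ⟨rfl, rfl⟩ := h5
        refine ⟨x, y, b, p, q, s, rfl, ?_, hr, by nlinarith, hne, hrr, by nlinarith⟩
        rintro rfl
        have := (FreeGroup.isReduced_cons_cons.1 hred).1 rfl
        simp at this
    · simp at e1
    · right
      have hw1 : w1 = [] := by
        apply List.length_eq_zero_iff.1
        simp at hlen
        omega
      have hw' : w' = [] := by
        apply List.length_eq_zero_iff.1
        simp at hlen
        omega
      subst hw1
      subst hw'
      simp only [List.cons_append, List.nil_append, List.cons.injEq, and_true] at e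
      obtain ⟨rfl, rfl, rfl⟩ := e
      have hred2 : FreeGroup.IsReduced [z2, z3] :=
        red_mid (a := [(x, b)]) (b := [(y, !b)]) hred (by simp)
      rcases h₁.short (by simp) hred2 with h5 | ⟨p, q, s, h5, hne, hrr, hDD⟩
      · simp at h5
      · simp only [List.cons.injEq, and_true] at h5
        obtain ⟨rfl, rfl⟩ := h5
        refine ⟨x, p, b, q, y, s, rfl, hne, hrr, hr, by nlinarith, ?_⟩
        have : S.κ x * S.D p q ≤ S.κ x * c₁ := mul_le_mul_of_nonneg_left hDD (by linarith)
        nlinarith

end comb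

end Pool.Agent.K4H31.FTG
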