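import Mathlib
import Pool.Agent.K4H31.FUrysohn

/-!
# `F_4(X)` is a Fréchet-Urysohn space if `X` is metrizable and `X'` is compact: topological part
-/

set_option autoImplicit false

namespace Pool.Agent.K4H31.FTG

open Classical Filter Topology Set
open scoped Pointwise

universe u

section metric

variable (X : Type u) [MetricSpace X]

/-- the set of the non-isolated points -/
def C : Set X := {x | ¬ IsOpen ({x} : Set X)}

variable {X}

/-- distance to the non-isolated points -/
noncomputable def δ (x : X) : ℝ := if (C X).Nonempty then Metric.infDist x (C X) else 1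

theorem δ_nonneg (x : X) : 0 ≤ δ x := by
  unfold δ; split_ifs
  · exact Metric.infDist_nonneg
  · exact zero_le_one

theorem δ_le {x y : X} (hx : x ∈ C X) : δ y ≤ dist x y := by
  unfold δ
  rw [if_pos ⟨x, hx⟩, dist_comm]
  exact Metric.infDist_le_dist_of_mem hx

theorem exists_near {x : X} {η : ℝ} (h1 : η ≤ 1) (h : δ x < η) : ∃ c ∈ C X, dist x c < η := by
  unfold δ at h
  split_ifs at h with hC
  · exact (Metric.infDist_lt_iff hC).1 h
  · linarith

noncomputable def σ (x y : X) : ℝ := if x = y then 0 else max (dist x y) (max (δ x) (δ y))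

theorem σ_self (x : X) : σ x x = 0 := by simp [σ]

theorem σ_nonneg (x y : X) : 0 ≤ σ x y := by
  unfold σ; split_ifs
  · exact le_rfl
  · exact dist_nonneg.trans (le_max_left _ _)

theorem σ_comm (x y : X) : σ x y = σ y x := by
  unfold σ
  by_cases h : x = y
  · simp [h]
  · rw [if_neg h, if_neg (Ne.symm h), dist_comm, max_comm (δ x)]

theorem dist_le_σ (x y : X) : dist x y ≤ σ x y := by
  unfold σ; split_ifs with h
  · simp [h]
  · exact le_max_left _ _

theorem δ_le_σ {x y : X} (h : x ≠ y) : δ x ≤ σ x y := by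
  unfold σ; rw [if_neg h]
  exact (le_max_left _ _).trans (le_max_right _ _)

theorem δ_le_σ' {x y : X} (h : x ≠ y) : δ y ≤ σ x y := by
  unfold σ; rw [if_neg h]
  exact (le_max_right _ _).trans (le_max_right _ _)

theorem σ_tri (x y z : X) : σ x z ≤ σ x y + σ y z := by
  by_cases hxz : x = z
  · subst hxz; rw [σ_self]; exact add_nonneg (σ_nonneg _ _) (σ_nonneg _ _)
  by_cases hxy : x = y
  · subst hxy; rw [σ_self]; simp
  by_cases hyz : y = z
  · subst hyz; rw [σ_self]; simp
  have h1 := dist_le_σ x y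
  have h2 := dist_le_σ y z
  have h3 := δ_le_σ hxy
  have h4 := δ_le_σ' hyz
  have h5 := σ_nonneg x y
  have h6 := σ_nonneg y z
  conv_lhs => rw [σ, if_neg hxz]
  refine max_le ?_ (max_le ?_ ?_)
  · exact (dist_triangle x y z).trans (by linarith)
  · linarith
  · linarith

/-- The weighted Graev scale. -/
noncomputable def scale (m : ℕ) (k : X → ℝ) : Scale X where
  r x y := x = y ∨ (δ x < 1 / (m + 1) ∧ δ y < 1 / (m + 1))
  equiv := by
    refine ⟨fun x => Or.inl rfl, ?_, ?_⟩
    · rintro x y (rfl | ⟨h1, h2⟩)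
      · exact Or.inl rfl
      · exact Or.inr ⟨h2, h1⟩
    · rintro x y z (rfl | ⟨h1, h2⟩) (rfl | ⟨h3, h4⟩)
      · exact Or.inl rfl
      · exact Or.inr ⟨h3, h4⟩
      · exact Or.inr ⟨h1, h2⟩
      · exact Or.inr ⟨h1, h4⟩
  κ x := if δ x < 1 / (m + 1) then 1 else max 1 (k x)
  one_le x := by
    split_ifs
    · exact le_rfl
    · exact le_max_left _ _
  κ_eq := by
    rintro x y (rfl | ⟨h1, h2⟩)
    · rfl
    · rw [if_pos h1, if_pos h2]
  D x y := (m + 1) * σ x y
  D_self x := by rw [σ_self]; simp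
  D_nonneg x y := mul_nonneg (by positivity) (σ_nonneg _ _)
  D_comm x y := by rw [σ_comm]
  D_tri x y z := by
    rw [← mul_add]
    exact mul_le_mul_of_nonneg_left (σ_tri x y z) (by positivity)

theorem scale_r {m : ℕ} {k : X → ℝ} {x y : X} : (scale m k).r x y ↔
    x = y ∨ (δ x < 1 / (m + 1) ∧ δ y < 1 / (m + 1)) := Iff.rfl

theorem scale_κ {m : ℕ} {k : X → ℝ} {x : X} : (scale m k).κ x =
    if δ x < 1 / (m + 1) then 1 else max 1 (k x) := rfl

theorem scale_D {m : ℕ} {k : X → ℝ} {x y : X} : (scale m k).D x y = (m + 1) * σ x y := rfl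

theorem scale_nhds (m : ℕ) (k : X → ℝ) (x : X) (ε : ℝ) (hε : 0 < ε) :
    {y | (scale m k).r x y ∧ (scale m k).D x y < ε} ∈ 𝓝 x := by
  have hm : (0 : ℝ) < m + 1 := by positivity
  by_cases hx : x ∈ C X
  · have h0 : δ x = 0 := le_antisymm (by have := δ_le (y := x) hx; simpa using this) (δ_nonneg x)
    have h1 : 0 < min (1 / ((m : ℝ) + 1)) (ε / (m + 1)) :=
      lt_min (by positivity) (by positivity)
    filter_upwards [Metric.ball_mem_nhds x h1] with y hy
    rw [Metric.mem_ball, dist_comm, lt_min_iff] at hy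
    have h2 := δ_le (y := y) hx
    refine ⟨Or.inr ⟨?_, h2.trans_lt hy.1⟩, ?_⟩
    · rw [h0]; positivity
    · rw [scale_D]
      have h3 : σ x y ≤ dist x y := by
        unfold σ; split_ifs
        · exact dist_nonneg
        · exact max_le le_rfl (max_le (by rw [h0]; exact dist_nonneg) h2)
      have h4 := hy.2
      rw [lt_div_iff₀ hm] at h4
      nlinarith
  · have hx' : IsOpen ({x} : Set X) := by
      by_contra h; exact hx h
    have : ({x} : Set X) ∈ 𝓝 x := hx'.mem_nhds rfl
    filter_upwards [this] with y hy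
    rw [mem_singleton_iff] at hy
    subst hy
    exact ⟨Or.inl rfl, by rw [scale_D, σ_self]; simpa using hε⟩

theorem scale_t2 (m : ℕ) (k : X → ℝ) : @T2Space _ (basis (scale m k)).topology := by
  let _ := (basis (scale m k)).topology
  have _ : IsTopologicalGroup (FreeGroup X) := (basis (scale m k)).isTopologicalGroup
  refine IsTopologicalGroup.t2Space_of_one_sep fun g hg => ?_
  -- the least cost of adjacent letters
  have key : ∃ ε > 0, ∀ (a : List (X × Bool)) (x : X) (b : Bool) (y : X) (a' : List (X × Bool)),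
      g.toWord = a ++ (x, b) :: (y, !b) :: a' → ε ≤ (scale m k).D x y := by
    have hfin : (Set.Finite {p : X × X | p.1 ∈ g.toWord.map Prod.fst ∧ p.2 ∈ g.toWord.map Prod.fst ∧
        p.1 ≠ p.2}) := by
      refine Set.Finite.subset ((List.finite_toSet (g.toWord.map Prod.fst)).prod
        (List.finite_toSet (g.toWord.map Prod.fst))) ?_
      rintro p ⟨h1, h2, -⟩
      exact ⟨h1, h2⟩
    have h1 : ∃ ε > 0, ∀ p ∈ {p : X × X | p.1 ∈ g.toWord.map Prod.fst ∧
        p.2 ∈ g.toWord.map Prod.fst ∧ p.1 ≠ p.2}, ε ≤ (scale m k).D p.1 p.2 := by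
      have hpos : ∀ p ∈ {p : X × X | p.1 ∈ g.toWord.map Prod.fst ∧
        p.2 ∈ g.toWord.map Prod.fst ∧ p.1 ≠ p.2}, 0 < (scale m k).D p.1 p.2 := by
        rintro p ⟨-, -, h⟩
        rw [scale_D]
        have := dist_pos.2 h
        have := dist_le_σ p.1 p.2
        have : 0 < σ p.1 p.2 := by linarith
        positivity
      rcases Set.eq_empty_or_nonempty {p : X × X | p.1 ∈ g.toWord.map Prod.fst ∧
        p.2 ∈ g.toWord.map Prod.fst ∧ p.1 ≠ p.2} with h0 | h0
      · rw [h0]; exact ⟨1, one_pos, fun p hp => absurd hp (by simp)⟩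
      · obtain ⟨p, hp, hmin⟩ := Set.exists_min_image _ (fun p => (scale m k).D p.1 p.2) hfin h0
        exact ⟨_, hpos p hp, hmin⟩
    obtain ⟨ε, hε, h⟩ := h1
    refine ⟨ε, hε, fun a x b y a' e => ?_⟩
    refine h (x, y) ⟨?_, ?_, ?_⟩
    · rw [e]; simp
    · rw [e]; simp
    · rintro hxy
      simp only at hxy
      subst hxy
      have hr : FreeGroup.IsReduced (g.toWord) := FreeGroup.isReduced_toWord
      have hr2 : FreeGroup.IsReduced [(x, b), (x, !b)] := red_mid (a := a) (b := a') hr (by rw [e]; simp)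
      have := (FreeGroup.isReduced_cons_cons.1 hr2).1 rfl
      simp at this
  obtain ⟨ε, hε, h⟩ := key
  refine ⟨ball (scale m k) ε, ball_mem_nhds _ hε, ?_⟩
  rintro ⟨c, hc, hn⟩
  have hne : g.toWord ≠ [] := fun h => hg (FreeGroup.toWord_eq_nil_iff.1 h)
  obtain ⟨a, x, b, y, a', e, hr, hD⟩ := hn.adj hne
  have := h a x b y a' e
  linarith

end metric

/-! ### Topological part -/

/-- `ι : X → G` is the free topological group of `X` in the sense of Markov, in the class of
Hausdorff topological groups. -/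
structure IsFreeTopologicalGroup {X G : Type u} [TopologicalSpace X] [Group G]
    [TopologicalSpace G] (ι : X → G) : Prop where
  isTopologicalGroup : IsTopologicalGroup G
  t2Space : T2Space G
  isEmbedding : IsEmbedding ι
  free : Function.Bijective (FreeGroup.lift ι)
  extend : ∀ (H : Type u) [Group H] [TopologicalSpace H] [IsTopologicalGroup H] [T2Space H]
    (f : X → H), Continuous f → ∃! φ : G →* H, Continuous φ ∧ ∀ x, φ (ι x) = f x

section top

set_option linter.unusedSectionVars false

variable {X G : Type u} [MetricSpace X] [Group G] [TopologicalSpace G] [IsTopologicalGroup G]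
  (ι : X → G)

/-- a letter in the group -/
def let' (x : X) (b : Bool) : G := bif b then ι x else (ι x)⁻¹

/-- evaluation of a word -/
def ev (L : List (X × Bool)) : G := (L.map fun p => let' ι p.1 p.2).prod

theorem ev_nil : ev ι [] = 1 := rfl

theorem ev_cons (x : X) (b : Bool) (L : List (X × Bool)) :
    ev ι ((x, b) :: L) = let' ι x b * ev ι L := by
  simp [ev]

theorem ev_append (L L' : List (X × Bool)) : ev ι (L ++ L') = ev ι L * ev ι L' := by
  simp [ev]

theorem ev_eq (L : List (X × Bool)) : ev ι L = FreeGroup.lift ι (FreeGroup.mk L) := by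
  rw [FreeGroup.lift_mk]; rfl

theorem let'_not (x : X) (b : Bool) : let' ι x (!b) = (let' ι x b)⁻¹ := by
  cases b <;> simp [let']

variable {ι}

theorem continuous_let' (hι : Continuous ι) (b : Bool) : Continuous fun x => let' ι x b := by
  cases b
  · exact hι.inv
  · exact hι

/-- pairs of near letters give elements near `1` -/
theorem pair_near (hι : Continuous ι) (hC : IsCompact (C X)) {O : Set G} (hO : O ∈ 𝓝 (1 : G)) :
    ∃ η > 0, ∀ (x y : X) (b : Bool), σ x y < η → let' ι x b * let' ι y (!b) ∈ O := by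
  have h1 : ∀ c : X, ∃ V : Set X, IsOpen V ∧ c ∈ V ∧ ∀ x ∈ V, ∀ y ∈ V, ∀ b : Bool,
      let' ι x b * let' ι y (!b) ∈ O := by
    intro c
    have h2 : ∀ b : Bool, ∀ᶠ p : X × X in 𝓝 (c, c), let' ι p.1 b * let' ι p.2 (!b) ∈ O := by
      intro b
      have hc : Continuous fun p : X × X => let' ι p.1 b * let' ι p.2 (!b) :=
        ((continuous_let' hι b).comp continuous_fst).mul
          ((continuous_let' hι (!b)).comp continuous_snd)
      refine hc.continuousAt.preimage_mem_nhds ?_
      simpa [let'_not] using hO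
    have h3 : ∀ᶠ p : X × X in 𝓝 (c, c), ∀ b : Bool, let' ι p.1 b * let' ι p.2 (!b) ∈ O :=
      (eventually_all).2 h2
    rw [nhds_prod_eq] at h3
    obtain ⟨t, ht, h4⟩ := Filter.mem_prod_self_iff.1 h3
    obtain ⟨V, hV, hVo, hc⟩ := mem_nhds_iff.1 ht
    exact ⟨V, hVo, hc, fun x hx y hy b => h4 (mk_mem_prod (hV hx) (hV hy)) b⟩
  choose V hVo hVc hV using h1
  obtain ⟨d, hd, hball⟩ := lebesgue_number_lemma_of_metric hC hVo
    (fun c _ => mem_iUnion.2 ⟨c, hVc c⟩)
  refine ⟨min 1 (d / 2), lt_min one_pos (half_pos hd), fun x y b hσ => ?_⟩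
  by_cases hxy : x = y
  · subst hxy
    rw [let'_not, mul_inv_cancel]
    exact mem_of_mem_nhds hO
  · obtain ⟨c, hc, hxc⟩ := exists_near (min_le_left _ _) ((δ_le_σ hxy).trans_lt hσ)
    obtain ⟨i, hi⟩ := hball c hc
    have h5 : dist x c < d / 2 := hxc.trans_le (min_le_right _ _)
    have h6 : dist x y < d / 2 := (dist_le_σ x y).trans_lt (hσ.trans_le (min_le_right _ _))
    refine hV i x (hi ?_) y (hi ?_) b
    · rw [Metric.mem_ball]; linarith
    · rw [Metric.mem_ball]
      have := dist_triangle y x c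
      rw [dist_comm y x] at this
      linarith

/-- letters near the compact set conjugate uniformly -/
theorem conj_near (hι : Continuous ι) (hC : IsCompact (C X)) {O : Set G} (hO : O ∈ 𝓝 (1 : G)) :
    ∃ V ∈ 𝓝 (1 : G), ∃ η > 0, ∀ x : X, δ x < η → ∀ (b : Bool), ∀ h ∈ V,
      let' ι x b * h * let' ι x (!b) ∈ O := by
  have h1 : ∀ b : Bool, ∃ V ∈ 𝓝 (1 : G), ∃ η > 0, ∀ x : X, δ x < η → ∀ h ∈ V,
      let' ι x b * h * let' ι x (!b) ∈ O := by
    intro b
    have hc : Continuous fun p : X × G => let' ι p.1 b * p.2 * let' ι p.1 (!b) :=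
      (((continuous_let' hι b).comp continuous_fst).mul continuous_snd).mul
        ((continuous_let' hι (!b)).comp continuous_fst)
    have hopen := hc.isOpen_preimage (interior O) isOpen_interior
    obtain ⟨u, v, hu, hv, hCu, h1v, huv⟩ := generalized_tube_lemma hC (isCompact_singleton (x := (1 : G)))
      hopen (by
        rintro ⟨c, h⟩ ⟨-, hh⟩
        rw [mem_singleton_iff] at hh
        simp only at hh
        subst hh
        simp only [mem_preimage, mul_one, let'_not, mul_inv_cancel]
        exact mem_interior_iff_mem_nhds.2 hO)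
    obtain ⟨d, hd, hthick⟩ := hC.exists_thickening_subset_open hu hCu
    refine ⟨v, hv.mem_nhds (h1v rfl), min 1 d, lt_min one_pos hd, fun x hx h hh => ?_⟩
    obtain ⟨c, hc, hxc⟩ := exists_near (min_le_left _ _) hx
    have hxu : x ∈ u := hthick (Metric.mem_thickening_iff.2 ⟨c, hc, hxc.trans_le (min_le_right _ _)⟩)
    exact interior_subset (huv (mk_mem_prod hxu hh))
  obtain ⟨V1, hV1, η1, hη1, h1'⟩ := h1 true
  obtain ⟨V2, hV2, η2, hη2, h2'⟩ := h1 false
  refine ⟨V1 ∩ V2, inter_mem hV1 hV2, min η1 η2, lt_min hη1 hη2, fun x hx b h hh => ?_⟩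
  cases b
  · exact h2' x (hx.trans_le (min_le_right _ _)) h hh.2
  · exact h1' x (hx.trans_le (min_le_left _ _)) h hh.1

/-- the closure in the free topological group: approximation by matchings -/
theorem exists_near_word (hG : IsFreeTopologicalGroup ι) (A : Set (List (X × Bool)))
    (u : List (X × Bool)) (hu : ev ι u ∈ closure (ev ι '' A)) (m : ℕ) (k : X → ℝ) {ε : ℝ}
    (hε : 0 < ε) : ∃ W ∈ A, ∃ c < ε, Near (scale m k) c (FreeGroup.invRev u ++ W) := by
  let _ := (basis (scale m k)).topology
  have _ : IsTopologicalGroup (FreeGroup X) := (basis (scale m k)).isTopologicalGroup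
  have _ : T2Space (FreeGroup X) := scale_t2 m k
  obtain ⟨φ, ⟨hφ, hφι⟩, -⟩ := hG.extend (FreeGroup X) FreeGroup.of
    (continuous_of (scale m k) (scale_nhds m k))
  have hlift : ∀ L : List (X × Bool), φ (ev ι L) = FreeGroup.mk L := by
    intro L
    rw [ev_eq]
    have : φ.comp (FreeGroup.lift ι) = MonoidHom.id _ := by
      ext x
      simp [hφι]
    exact DFunLike.congr_fun this (FreeGroup.mk L)
  have hnhds : {h : G | (FreeGroup.mk u)⁻¹ * φ h ∈ ball (scale m k) ε} ∈ 𝓝 (ev ι u) := by
    have hc : Continuous fun h : G => (FreeGroup.mk u)⁻¹ * φ h := continuous_const.mul hφ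
    refine hc.continuousAt.preimage_mem_nhds ?_
    rw [hlift, inv_mul_cancel]
    exact ball_mem_nhds _ hε
  obtain ⟨_, h, ⟨W, hW, rfl⟩⟩ := mem_closure_iff_nhds.1 hu _ hnhds
  refine ⟨W, hW, ?_⟩
  simp only [mem_ofPred_eq, hlift, FreeGroup.inv_mk, FreeGroup.mul_mk] at h
  exact mem_ball_mk.1 h

/-- `W` is near the inverse of `U`. -/
theorem match_near (hι : Continuous ι) (hC : IsCompact (C X)) (k : X → ℝ) :
    ∀ (U : List (X × Bool)) (O : Set G), O ∈ 𝓝 (ev ι (FreeGroup.invRev U)) →
      ∀ᶠ m : ℕ in atTop, ∀ (W : List (X × Bool)) (c : ℝ), Match (scale m k) c U W → c < 1 →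
        FreeGroup.IsReduced W → W.length ≤ U.length + 3 → ev ι W ∈ O := by
  have small : ∀ η : ℝ, 0 < η → ∀ᶠ m : ℕ in atTop, ∀ (x y : X) (c : ℝ), c < 1 →
      (scale m k).D x y ≤ c → σ x y < η := by
    intro η hη
    obtain ⟨N, hN⟩ := exists_nat_gt (1 / η)
    filter_upwards [eventually_ge_atTop N] with m hm x y c hc hD
    rw [scale_D] at hD
    have h1 : (1 : ℝ) / η < m + 1 := by
      have : (N : ℝ) ≤ m := by exact_mod_cast hm
      linarith
    rw [div_lt_iff₀ hη] at h1
    by_contra h2
    push Not at h2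
    have h3 : (0 : ℝ) < m + 1 := by positivity
    have h4 : ((m : ℝ) + 1) * η ≤ (m + 1) * σ x y := mul_le_mul_of_nonneg_left h2 h3.le
    linarith
  have gap : ∀ O ∈ 𝓝 (1 : G), ∀ᶠ m : ℕ in atTop, ∀ (W : List (X × Bool)) (c : ℝ),
      Near (scale m k) c W → c < 1 → FreeGroup.IsReduced W → W.length ≤ 3 → ev ι W ∈ O := by
    intro O hO
    obtain ⟨η, hη, h⟩ := pair_near hι hC hO
    filter_upwards [small η hη] with m hm W c hn hc hr hl
    rcases hn.short hl hr with rfl | ⟨x, y, b, rfl, hne, hxy, hD⟩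
    · rw [ev_nil]; exact mem_of_mem_nhds hO
    · rw [ev_cons, ev_cons, ev_nil, mul_one]
      exact h x y b (hm x y c hc hD)
  intro U
  induction U with
  | nil =>
    intro O hO
    filter_upwards [gap O hO] with m hm W c hmat hc hr hl
    cases hmat with
    | nil _ h => exact hm W c h hc hr (by simpa using hl)
  | cons p U ih =>
    obtain ⟨x, b⟩ := p
    intro O hO
    have e1 : ev ι (FreeGroup.invRev ((x, b) :: U)) =
        ev ι (FreeGroup.invRev U) * let' ι x (!b) * 1 := by
      have : FreeGroup.invRev ((x, b) :: U) = FreeGroup.invRev U ++ [(x, !b)] := by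
        simp [FreeGroup.invRev]
      rw [this, ev_append, ev_cons, ev_nil, mul_one, mul_one]
    rw [e1] at hO
    have hcont : Continuous fun p : (G × G) × G => p.1.1 * p.1.2 * p.2 := by fun_prop
    have hO' : ∀ᶠ p : (G × G) × G in 𝓝 ((ev ι (FreeGroup.invRev U), let' ι x (!b)), 1),
        p.1.1 * p.1.2 * p.2 ∈ O := hcont.continuousAt.preimage_mem_nhds hO
    rw [nhds_prod_eq, nhds_prod_eq] at hO'
    obtain ⟨O12, hO12, O3, hO3, h3⟩ := Filter.mem_prod_iff.1 hO'
    obtain ⟨O1, hO1, O2, hO2, h12⟩ := Filter.mem_prod_iff.1 hO12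
    have hlet : ∃ η > 0, ∀ y : X, σ x y < η → let' ι y (!b) ∈ O2 := by
      have : (fun y => let' ι y (!b)) ⁻¹' O2 ∈ 𝓝 x :=
        (continuous_let' hι (!b)).continuousAt.preimage_mem_nhds hO2
      obtain ⟨η, hη, hb⟩ := Metric.mem_nhds_iff.1 this
      refine ⟨η, hη, fun y hy => hb ?_⟩
      rw [Metric.mem_ball, dist_comm]
      exact (dist_le_σ x y).trans_lt hy
    obtain ⟨η, hη, hη2⟩ := hlet
    filter_upwards [ih O1 hO1, gap O3 hO3, small η hη] with m h4 h5 h6 W c hmat hc hr hl
    generalize hV : (x, b) :: U = V at hmat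
    cases hmat with
    | nil => exact absurd hV (by simp)
    | cons x' y b' U' W' G' hrr hD hm hG =>
      simp only [List.cons.injEq, Prod.mk.injEq] at hV
      obtain ⟨⟨rfl, rfl⟩, rfl⟩ := hV
      have hlen := hm.length_le
      simp only [List.length_append, List.length_cons] at hl
      have m1 : ev ι W' ∈ O1 := h4 W' c hm hc (red_mid (a := []) (b := (y, !b) :: G') hr (by simp)) (by omega)
      have m2 : ev ι G' ∈ O3 := h5 G' c hG hc (red_mid (a := W' ++ [(y, !b)]) (b := []) hr (by simp)) (by omega)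
      have m3 : let' ι y (!b) ∈ O2 := hη2 y (h6 x y c hc hD)
      have m4 := h3 (mk_mem_prod (h12 (mk_mem_prod m1 m3)) m2)
      simp only [mem_ofPred_eq] at m4
      rw [ev_append, ev_cons, ← mul_assoc]
      exact m4

theorem isReduced_invRev {u : List (X × Bool)} (h : FreeGroup.IsReduced u) :
    FreeGroup.IsReduced (FreeGroup.invRev u) := by
  rw [FreeGroup.isReduced_iff_reduce_eq] at h ⊢
  rw [FreeGroup.reduce_invRev, h]

/-- closure points other than `1` -/
theorem seq_of_ne (hG : IsFreeTopologicalGroup ι) (hC : IsCompact (C X))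
    (A : Set (List (X × Bool))) (hA : ∀ W ∈ A, FreeGroup.IsReduced W ∧ W.length ≤ 4)
    (u : List (X × Bool)) (hur : FreeGroup.IsReduced u) (hne : u ≠ [])
    (hu : ev ι u ∈ closure (ev ι '' A)) :
    ∃ w : ℕ → List (X × Bool), (∀ n, w n ∈ A) ∧ Tendsto (fun n => ev ι (w n)) atTop (𝓝 (ev ι u)) := by
  choose w hw c hc hn using fun m : ℕ => exists_near_word hG A u hu m (fun _ => 0) one_pos
  refine ⟨w, hw, ?_⟩
  set U := FreeGroup.invRev u with hU
  have hUr : FreeGroup.IsReduced U := isReduced_invRev hur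
  have hlen : U.length = u.length := FreeGroup.invRev_length
  have hupos : 0 < u.length := List.length_pos_iff.2 hne
  -- adjacent letters of `U` are far from each other
  have hfar : ∀ᶠ m : ℕ in atTop, ∀ (a : List (X × Bool)) (x : X) (b : Bool) (y : X)
      (a' : List (X × Bool)), U = a ++ (x, b) :: (y, !b) :: a' →
      1 ≤ (scale m (fun _ : X => (0 : ℝ))).D x y := by
    have hfin : (Set.Finite {p : X × X | p.1 ∈ U.map Prod.fst ∧ p.2 ∈ U.map Prod.fst ∧
        p.1 ≠ p.2}) := by
      refine Set.Finite.subset ((List.finite_toSet (U.map Prod.fst)).prod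
        (List.finite_toSet (U.map Prod.fst))) ?_
      rintro p ⟨h1, h2, -⟩
      exact ⟨h1, h2⟩
    have h1 : ∀ᶠ m : ℕ in atTop, ∀ p ∈ {p : X × X | p.1 ∈ U.map Prod.fst ∧
        p.2 ∈ U.map Prod.fst ∧ p.1 ≠ p.2}, 1 ≤ (scale m (fun _ : X => (0 : ℝ))).D p.1 p.2 := by
      rw [hfin.eventually_all]
      rintro p ⟨-, -, h⟩
      have h2 : 0 < σ p.1 p.2 := (dist_pos.2 h).trans_le (dist_le_σ _ _)
      obtain ⟨N, hN⟩ := exists_nat_gt (1 / σ p.1 p.2)
      filter_upwards [eventually_ge_atTop N] with m hm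
      rw [scale_D]
      rw [div_lt_iff₀ h2] at hN
      have : (N : ℝ) ≤ m := by exact_mod_cast hm
      nlinarith
    filter_upwards [h1] with m hm a x b y a' e
    refine hm (x, y) ⟨?_, ?_, ?_⟩
    · rw [e]; simp
    · rw [e]; simp
    · rintro hxy
      simp only at hxy
      subst hxy
      have hr2 : FreeGroup.IsReduced [(x, b), (x, !b)] := red_mid (a := a) (b := a') hUr (by rw [e]; simp)
      have := (FreeGroup.isReduced_cons_cons.1 hr2).1 rfl
      simp at this
  rw [tendsto_def]
  intro O hO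
  have hO' : O ∈ 𝓝 (ev ι (FreeGroup.invRev U)) := by rwa [hU, FreeGroup.invRev_invRev]
  filter_upwards [hfar, match_near hG.isEmbedding.continuous hC (fun _ => 0) U O hO']
    with m h1 h2
  refine h2 (w m) (c m) (match_of_near U (w m) (fun a x b y a' e _ => ?_) (hn m)) (hc m)
    (hA _ (hw m)).1 ?_
  · exact (hc m).trans_le (h1 a x b y a' e)
  · have := (hA _ (hw m)).2
    omega

/-- the closure point `1` -/
theorem seq_one (hG : IsFreeTopologicalGroup ι) (hC : IsCompact (C X))
    (A : Set (List (X × Bool))) (hA : ∀ W ∈ A, FreeGroup.IsReduced W ∧ W.length ≤ 4)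
    (hu : ev ι [] ∈ closure (ev ι '' A)) :
    ∃ w : ℕ → List (X × Bool), (∀ n, w n ∈ A) ∧ Tendsto (fun n => ev ι (w n)) atTop (𝓝 (ev ι [])) := by
  have hι := hG.isEmbedding.continuous
  rw [ev_nil] at *
  by_cases hcase : ∃ (x : X) (b : Bool), ∀ η > 0, ∃ (y z : X) (s : Bool), y ≠ z ∧ σ y z < η ∧
      [(x, b), (y, s), (z, !s), (x, !b)] ∈ A
  · obtain ⟨x, b, h⟩ := hcase
    choose y z s hne hσ hAA using fun n : ℕ => h (1 / (n + 1)) (by positivity)
    refine ⟨fun n => [(x, b), (y n, s n), (z n, !(s n)), (x, !b)], hAA, ?_⟩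
    rw [tendsto_def]
    intro O hO
    have hc : Continuous fun h : G => let' ι x b * h * let' ι x (!b) := by fun_prop
    have h1 : (fun h : G => let' ι x b * h * let' ι x (!b)) ⁻¹' O ∈ 𝓝 (1 : G) := by
      refine hc.continuousAt.preimage_mem_nhds ?_
      simpa [let'_not] using hO
    obtain ⟨η, hη, hp⟩ := pair_near hι hC h1
    obtain ⟨N, hN⟩ := exists_nat_gt (1 / η)
    filter_upwards [eventually_ge_atTop N] with n hn
    have h2 : (1 : ℝ) / (n + 1) < η := by
      have : (N : ℝ) ≤ n := by exact_mod_cast hn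
      rw [div_lt_iff₀ (by positivity)]
      rw [div_lt_iff₀ hη] at hN
      nlinarith
    have h3 := hp (y n) (z n) (s n) ((hσ n).trans h2)
    simp only [mem_preimage] at h3 ⊢
    simp only [ev_cons, ev_nil, mul_one]
    rw [← mul_assoc, ← mul_assoc]
    rw [← mul_assoc] at h3
    exact h3
  · push Not at hcase
    choose η hη hno using hcase
    -- the weights
    set k : X → ℝ := fun x => 1 / η x true + 1 / η x false with hk
    have hkη : ∀ x b, 1 / η x b ≤ k x := by
      intro x b
      have h1 : 0 < 1 / η x true := by have := hη x true; positivity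
      have h2 : 0 < 1 / η x false := by have := hη x false; positivity
      cases b <;> simp only [hk] <;> linarith
    choose w hw c hc hn using fun m : ℕ => exists_near_word hG A [] (by rwa [ev_nil]) m k one_pos
    refine ⟨w, hw, ?_⟩
    rw [tendsto_def]
    intro O hO
    -- a neighbourhood whose square is in `O`
    have hcont : Continuous fun p : G × G => p.1 * p.2 := continuous_mul
    have hO' : ∀ᶠ p : G × G in 𝓝 ((1 : G), (1 : G)), p.1 * p.2 ∈ O :=
      hcont.continuousAt.preimage_mem_nhds (by simpa using hO)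
    rw [nhds_prod_eq] at hO'
    obtain ⟨V, hV, hVV⟩ := Filter.mem_prod_self_iff.1 hO'
    have hVO : V ⊆ O := by
      intro g hg
      have := hVV (mk_mem_prod hg (mem_of_mem_nhds hV))
      simpa using this
    obtain ⟨V', hV', η0, hη0, hconj⟩ := conj_near hι hC hV
    obtain ⟨η1, hη1, hp1⟩ := pair_near hι hC hV
    obtain ⟨η2, hη2, hp2⟩ := pair_near hι hC hV'
    obtain ⟨N, hN⟩ := exists_nat_gt (1 / min η0 (min η1 η2))
    have hmin : 0 < min η0 (min η1 η2) := lt_min hη0 (lt_min hη1 hη2)
    filter_upwards [eventually_ge_atTop N] with m hm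
    have hm0 : (0 : ℝ) < m + 1 := by positivity
    have h2 : (1 : ℝ) / (m + 1) < min η0 (min η1 η2) := by
      have : (N : ℝ) ≤ m := by exact_mod_cast hm
      rw [div_lt_iff₀ (by positivity)]
      rw [div_lt_iff₀ hmin] at hN
      nlinarith
    have hD : ∀ x y : X, (scale m k).D x y ≤ c m → σ x y < 1 / (m + 1) := by
      intro x y h
      rw [scale_D] at h
      have := hc m
      rw [lt_div_iff₀ hm0]
      linarith
    have hn' : Near (scale m k) (c m) (w m) := by simpa [FreeGroup.invRev] using hn m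
    simp only [mem_preimage]
    rcases hn'.short4 (hA _ (hw m)).2 (hA _ (hw m)).1 with h | ⟨x, y, b, h, -, -, hxy⟩ |
      ⟨x, y, b, z, t, s, h, -, -, hxy, -, -, hzt⟩ | ⟨x, y, b, z, t, s, h, hyz, hryz, hrxt, hDxt, hκ⟩
    · rw [h, ev_nil]; exact mem_of_mem_nhds hO
    · rw [h, ev_cons, ev_cons, ev_nil, mul_one]
      refine hVO (hp1 x y b ((hD x y hxy).trans (h2.trans_le ?_)))
      exact (min_le_right _ _).trans (min_le_left _ _)
    · rw [h, ev_cons, ev_cons, ev_cons, ev_cons, ev_nil, mul_one, ← mul_assoc]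
      have m1 := hp1 x y b ((hD x y hxy).trans (h2.trans_le
        ((min_le_right _ _).trans (min_le_left _ _))))
      have m2 := hp1 z t s ((hD z t hzt).trans (h2.trans_le
        ((min_le_right _ _).trans (min_le_left _ _))))
      exact hVV (mk_mem_prod m1 m2)
    · by_cases hx : δ x < 1 / (m + 1)
      · rw [scale_κ, if_pos hx, one_mul] at hκ
        have m1 := hp2 y z s ((hD y z hκ).trans (h2.trans_le
          ((min_le_right _ _).trans (min_le_right _ _))))
        have m2 := hp1 x t b ((hD x t hDxt).trans (h2.trans_le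
          ((min_le_right _ _).trans (min_le_left _ _))))
        have m3 := hconj x (hx.trans (h2.trans_le (min_le_left _ _))) b _ m1
        have m4 := hVV (mk_mem_prod m3 m2)
        simp only [mem_ofPred_eq] at m4
        rw [h]
        simp only [ev_cons, ev_nil, mul_one]
        rw [let'_not ι x] at m4
        simpa [mul_assoc] using m4
      · exfalso
        have hxt : x = t := by
          rcases hrxt with h | h
          · exact h
          · exact absurd h.1 hx
        subst hxt
        rw [scale_κ, if_neg hx, scale_D] at hκ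
        have h3 : σ y z < η x b := by
          have h4 : 1 / η x b ≤ max 1 (k x) := (hkη x b).trans (le_max_right _ _)
          have h5 := σ_nonneg y z
          have h6 := hη x b
          have h7 := hc m
          have h8 : (1 : ℝ) ≤ m + 1 := by
            have : (0 : ℝ) ≤ m := Nat.cast_nonneg m
            linarith
          have h9 : σ y z ≤ (m + 1) * σ y z := by nlinarith
          have h10 : 1 / η x b * σ y z ≤ max 1 (k x) * ((m + 1) * σ y z) :=
            mul_le_mul h4 h9 h5 (le_trans zero_le_one (le_max_left _ _))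
          have h11 : 1 / η x b * σ y z < 1 := by linarith
          rw [one_div, inv_mul_lt_iff₀ h6] at h11
          linarith
        exact hno x b y z s hyz h3 (h ▸ hw m)

end top

end Pool.Agent.K4H31.FTG
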