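import Pool.Agent.K4H40.NS.Spec

set_option autoImplicit false

namespace Pool.Agent.K4H31.NSDIM

open MvPolynomial Module Pool.Agent.K4H40.NS

noncomputable section

lemma finrank_hs (σ : Type) [Fintype σ] (K : Type) [Field K] (m : ℕ) :
    finrank K (homogeneousSubmodule σ K m) = (Fintype.card σ + m - 1).choose m := by
  classical
  rw [homogeneousSubmodule_eq_finsupp_supported]
  rw [(AddMonoidAlgebra.supportedEquivFinsupp (R := K) (S := K)
    ({d : σ →₀ ℕ | d.degree = m} : Set (σ →₀ ℕ))).finrank_eq]
  let e : Sym σ m ≃ ({d : σ →₀ ℕ | d.degree = m} : Set (σ →₀ ℕ)) :=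
    (Sym.equivNatSum σ m).trans (Equiv.subtypeEquivRight (fun d => Iff.rfl))
  let _inst : Fintype ({d : σ →₀ ℕ | d.degree = m} : Set (σ →₀ ℕ)) := Fintype.ofEquiv _ e
  rw [Module.finrank_finsupp_self, ← Fintype.card_congr e, Sym.card_sym_eq_choose]

/-- the span of the `l i * f`, `f` a form of degree `d` -/
def Wd {n r : ℕ} {K : Type} [Field K] (l : Fin r → R n K) (d : ℕ) : Submodule K (R n K) :=
  Submodule.span K {p | ∃ i, ∃ f ∈ hs n K d, p = l i * f}

lemma Wd_mul {n r : ℕ} {K : Type} [Field K] (l : Fin r → R n K) (d : ℕ) {y w : R n K}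
    (hy : y ∈ hs n K 1) (hw : w ∈ Wd l d) : y * w ∈ Wd l (d + 1) := by
  unfold Wd at hw ⊢
  induction hw using Submodule.span_induction with
  | mem x hx =>
    obtain ⟨i, f, hf, rfl⟩ := hx
    refine Submodule.subset_span ⟨i, f * y, ?_, by ring⟩
    exact IsHomogeneous.mul hf hy
  | zero => rw [mul_zero]; exact Submodule.zero_mem _
  | add a b _ _ ha hb => rw [mul_add]; exact Submodule.add_mem _ ha hb
  | smul c a _ ha => rw [mul_smul_comm]; exact Submodule.smul_mem _ _ ha

lemma Wd_le {n r : ℕ} {K : Type} [Field K] (l : Fin r → R n K) (hl : ∀ i, l i ∈ hs n K 1)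
    (d : ℕ) : Wd l d ≤ hs n K (d + 1) := by
  unfold Wd
  rw [Submodule.span_le]
  rintro p ⟨i, f, hf, rfl⟩
  have := IsHomogeneous.mul (hl i) hf
  rwa [add_comm] at this

theorem dim_aux {n r : ℕ} {K : Type} [Field K] (l : Fin r → R n K) (hl : ∀ i, l i ∈ hs n K 1)
    (hli : LinearIndependent K l) (d : ℕ) : finrank K (hs n K (d + 1)) =
    finrank K (Wd l d) + (n - r + d).choose (d + 1) := by
  classical
  -- linear forms and vectors
  set L : (Fin n → K) →ₗ[K] R n K := Fintype.linearCombination K (X : Fin n → R n K) with hL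
  have hLmem : ∀ x ∈ hs n K 1, ∃ v, L v = x := by
    intro x hx
    change x ∈ homogeneousSubmodule (Fin n) K 1 at hx
    rw [homogeneousSubmodule_one_eq_span_X, Submodule.mem_span_range_iff_exists_fun] at hx
    obtain ⟨c, hc⟩ := hx
    exact ⟨c, by rw [hL, Fintype.linearCombination_apply, hc]⟩
  have hLhom : ∀ v, L v ∈ hs n K 1 := by
    intro v
    rw [hL, Fintype.linearCombination_apply]
    exact Submodule.sum_mem _ fun i _ => Submodule.smul_mem _ _ (isHomogeneous_X K i)
  choose a ha using fun i => hLmem (l i) (hl i)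
  have hali : LinearIndependent K a := by
    refine LinearIndependent.of_comp L ?_
    have : L ∘ a = l := funext ha
    rwa [this]
  set W : Submodule K (Fin n → K) := Submodule.span K (Set.range a) with hW
  set m : ℕ := finrank K ((Fin n → K) ⧸ W) with hm
  have hmn : m = n - r := by
    have h1 := Submodule.finrank_quotient_add_finrank W
    have h2 : finrank K W = r := by
      rw [hW, finrank_span_eq_card hali, Fintype.card_fin]
    rw [h2, Module.finrank_fin_fun] at h1
    omega
  let c : Basis (Fin m) K ((Fin n → K) ⧸ W) := finBasis K _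
  let q : (Fin n → K) →ₗ[K] ((Fin n → K) ⧸ W) := W.mkQ
  obtain ⟨s, hsec⟩ := q.exists_rightInverse_of_surjective (Submodule.range_mkQ W)
  have hqs : ∀ w, q (s w) = w := fun w => LinearMap.congr_fun hsec w
  let L' : ((Fin n → K) ⧸ W) →ₗ[K] MvPolynomial (Fin m) K :=
    (Fintype.linearCombination K (X : Fin m → MvPolynomial (Fin m) K)) ∘ₗ
      (c.equivFun : ((Fin n → K) ⧸ W) →ₗ[K] (Fin m → K))
  have hL'c : ∀ t, L' (c t) = X t := by
    intro t
    simp only [L', LinearMap.comp_apply, LinearEquiv.coe_coe, Basis.equivFun_self,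
      Fintype.linearCombination_apply]
    simp
  have hL'hom : ∀ w, L' w ∈ homogeneousSubmodule (Fin m) K 1 := by
    intro w
    simp only [L', LinearMap.comp_apply, Fintype.linearCombination_apply]
    exact Submodule.sum_mem _ fun i _ => Submodule.smul_mem _ _ (isHomogeneous_X K i)
  let π : R n K →ₐ[K] MvPolynomial (Fin m) K := aeval (fun j => L' (q (Pi.single j 1)))
  let ψ : MvPolynomial (Fin m) K →ₐ[K] R n K := aeval (fun t => L (s (c t)))
  have hπL : ∀ v, π (L v) = L' (q v) := by
    intro v
    have h1 : π.toLinearMap ∘ₗ L = L' ∘ₗ q := by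
      refine LinearMap.pi_ext' fun j => LinearMap.ext_ring ?_
      simp only [LinearMap.comp_apply, LinearMap.single_apply, AlgHom.toLinearMap_apply, hL,
        Fintype.linearCombination_apply_single, one_smul]
      simp [π]
    exact LinearMap.congr_fun h1 v
  have hψL : ∀ w, ψ (L' w) = L (s w) := by
    intro w
    have h1 : ψ.toLinearMap ∘ₗ L' = L ∘ₗ s := by
      refine c.ext fun t => ?_
      simp only [LinearMap.comp_apply, AlgHom.toLinearMap_apply, hL'c]
      simp [ψ]
    exact LinearMap.congr_fun h1 w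
  have hπψ : ∀ p, π (ψ p) = p := by
    intro p
    have h1 : π.comp ψ = AlgHom.id K _ := by
      refine MvPolynomial.algHom_ext fun t => ?_
      rw [AlgHom.comp_apply]
      have h2 : ψ (X t) = L (s (c t)) := by simp [ψ]
      rw [h2, hπL, hqs, hL'c]
      rfl
    exact AlgHom.congr_fun h1 p
  have hπhom : ∀ e, ∀ f ∈ hs n K e, π f ∈ homogeneousSubmodule (Fin m) K e := by
    intro e f hf
    have h1 := IsHomogeneous.aeval (n := 1) hf (fun j => L' (q (Pi.single j 1)))
      (fun j => hL'hom _)
    rwa [one_mul] at h1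
  have hψhom : ∀ e, ∀ f ∈ homogeneousSubmodule (Fin m) K e, ψ f ∈ hs n K e := by
    intro e f hf
    have h1 := IsHomogeneous.aeval (n := 1) hf (fun t => L (s (c t))) (fun t => hLhom _)
    rwa [one_mul] at h1
  have hπl : ∀ i, π (l i) = 0 := by
    intro i
    rw [← ha i, hπL]
    have h1 : q (a i) = 0 := by
      rw [Submodule.mkQ_apply, Submodule.Quotient.mk_eq_zero]
      exact Submodule.subset_span ⟨i, rfl⟩
    rw [h1, map_zero]
  have hone : ∀ x ∈ hs n K 1, ∃ k : Fin r → K, x - ψ (π x) = ∑ i, k i • l i := by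
    intro x hx
    obtain ⟨v, rfl⟩ := hLmem x hx
    rw [hπL, hψL, ← map_sub]
    have h1 : v - s (q v) ∈ W := by
      rw [← Submodule.Quotient.mk_eq_zero, ← Submodule.mkQ_apply, map_sub]
      change q v - q (s (q v)) = 0
      rw [hqs, sub_self]
    have h2 : v - s (q v) ∈ Submodule.span K (Set.range a) := h1
    obtain ⟨k, hk⟩ := (Submodule.mem_span_range_iff_exists_fun K).1 h2
    refine ⟨k, ?_⟩
    rw [← hk, map_sum]
    exact Finset.sum_congr rfl fun i _ => by rw [map_smul, ha]
  have hmul : ∀ e, hs n K (e + 1) = hs n K 1 * hs n K e := by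
    intro e
    change homogeneousSubmodule (Fin n) K (e + 1) =
      homogeneousSubmodule (Fin n) K 1 * homogeneousSubmodule (Fin n) K e
    rw [← homogeneousSubmodule_one_pow K (e + 1), ← homogeneousSubmodule_one_pow K e, pow_succ']
  have hdiff : ∀ e, ∀ f ∈ hs n K (e + 1), f - ψ (π f) ∈ Wd l e := by
    intro e
    induction e with
    | zero =>
      intro f hf
      obtain ⟨k, hk⟩ := hone f hf
      rw [hk]
      refine Submodule.sum_mem _ fun i _ => Submodule.smul_mem _ _ ?_
      exact Submodule.subset_span ⟨i, 1, isHomogeneous_one _ _, by rw [mul_one]⟩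
    | succ e ih =>
      intro f hf
      rw [hmul (e + 1)] at hf
      induction hf using Submodule.mul_induction_on' with
      | mem_mul_mem x hx g hg =>
        have h1 : x * g - ψ (π (x * g)) = (x - ψ (π x)) * g + ψ (π x) * (g - ψ (π g)) := by
          rw [map_mul, map_mul]
          ring
        rw [h1]
        refine Submodule.add_mem _ ?_ (Wd_mul l e (hψhom 1 _ (hπhom 1 _ hx)) (ih g hg))
        obtain ⟨k, hk⟩ := hone x hx
        rw [hk, Finset.sum_mul]
        refine Submodule.sum_mem _ fun i _ => ?_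
        rw [smul_mul_assoc]
        exact Submodule.smul_mem _ _ (Submodule.subset_span ⟨i, g, hg, rfl⟩)
      | add x _ y _ hx hy =>
        have h1 : x + y - ψ (π (x + y)) = (x - ψ (π x)) + (y - ψ (π y)) := by
          rw [map_add, map_add]
          ring
        rw [h1]
        exact Submodule.add_mem _ hx hy
  have hWz : Wd l d ≤ LinearMap.ker π.toLinearMap := by
    unfold Wd
    rw [Submodule.span_le]
    rintro _ ⟨i, g, -, rfl⟩
    change π (l i * g) = 0
    rw [map_mul, hπl, zero_mul]
  -- rank and nullity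
  let F : hs n K (d + 1) →ₗ[K] homogeneousSubmodule (Fin m) K (d + 1) :=
    π.toLinearMap.restrict (fun f hf => hπhom (d + 1) f hf)
  have : Module.Finite K (hs n K (d + 1)) :=
    Module.Finite.iff_fg.2 (homogeneousSubmodule_fg (Fin n) K (d + 1))
  have hrn := LinearMap.finrank_range_add_finrank_ker F
  have hsurj : Function.Surjective F := by
    rintro ⟨p, hp⟩
    refine ⟨⟨ψ p, hψhom _ _ hp⟩, ?_⟩
    apply Subtype.ext
    exact hπψ p
  rw [LinearMap.range_eq_top.2 hsurj, finrank_top, finrank_hs, Fintype.card_fin] at hrn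
  have hker : LinearMap.ker F = (Wd l d).comap (hs n K (d + 1)).subtype := by
    ext ⟨f, hf⟩
    rw [LinearMap.mem_ker, Submodule.mem_comap, Submodule.subtype_apply]
    constructor
    · intro h
      have h1 : π f = 0 := congrArg Subtype.val h
      have h2 := hdiff d f hf
      rwa [h1, map_zero, sub_zero] at h2
    · intro h
      apply Subtype.ext
      change π f = 0
      exact hWz h
  rw [hker, (Submodule.comapSubtypeEquivOfLe (Wd_le l hl d)).finrank_eq] at hrn
  rw [← hrn, hmn, add_comm]
  congr 2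

end

end Pool.Agent.K4H31.NSDIM

namespace Pool.Agent.K4H40.NS

/-- [DIM] -/
theorem dim : StDIM := by
  intro n r K _ l hl hli _ d
  exact Pool.Agent.K4H31.NSDIM.dim_aux l hl hli d

end Pool.Agent.K4H40.NS
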